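import Pool.Agent.Helper45.LGB.St

set_option autoImplicit false

/-!
Project LGB (MP_97dcad_al), module BRK: long iterated commutators kill the module.
-/

namespace Pool.Agent.Helper10.LGB

open Pool.Agent.Helper45.LGB

private lemma act_append {p : ℕ} {ι V : Type} [AddCommGroup V] [Module (ZMod p) V]
    (f : ι → Module.End (ZMod p) V) (u u' : List ι) (v : V) :
    act f (u ++ u') v = act f u' (act f u v) := by
  simp [act, List.foldl_append]

private lemma act_cons {p : ℕ} {ι V : Type} [AddCommGroup V] [Module (ZMod p) V]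
    (f : ι → Module.End (ZMod p) V) (z : ι) (u : List ι) (v : V) :
    act f (z :: u) v = act f u (f z v) := rfl

private lemma ad_snoc {p : ℕ} {ι V : Type} [AddCommGroup V] [Module (ZMod p) V]
    (f : ι → Module.End (ZMod p) V) (u : List ι) (z : ι) (ν : Module.End (ZMod p) V) :
    ad f (u ++ [z]) ν = cb (f z) (ad f u ν) := by
  simp [ad, List.foldl_append]

private def Gn {p : ℕ} {ι V : Type} [AddCommGroup V] [Module (ZMod p) V]
    (f : ι → Module.End (ZMod p) V) (ν : Module.End (ZMod p) V) (d : List ι) (w : V) : Set V :=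
  {z | ∃ d₁ d₂ : List ι, (∀ i ∈ d₁, i ∈ d) ∧ (∀ i ∈ d₂, i ∈ d) ∧
    (∀ i ∈ d, i ∈ d₁ ∨ i ∈ d₂) ∧ z = act f d₂ (ν (act f d₁ w))}

private lemma span_claim {p : ℕ} {ι V : Type} [AddCommGroup V] [Module (ZMod p) V]
    (f : ι → Module.End (ZMod p) V) (ν : Module.End (ZMod p) V) (d : List ι) :
    ∀ w : V, (ad f d ν) w ∈ Submodule.span (ZMod p) (Gn f ν d w) := by
  induction d using List.reverseRecOn with
  | nil =>
    intro w
    refine Submodule.subset_span ⟨[], [], by simp, by simp, by simp, rfl⟩
  | append_singleton d z ih =>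
    intro w
    rw [ad_snoc]
    have hcb : (cb (f z) (ad f d ν)) w = f z ((ad f d ν) w) - (ad f d ν) (f z w) := by
      simp [cb, LinearMap.sub_apply]
    rw [hcb]
    refine Submodule.sub_mem _ ?_ ?_
    · have h := ih w
      have h2 : f z ((ad f d ν) w) ∈
          (Submodule.span (ZMod p) (Gn f ν d w)).map (f z) := Submodule.mem_map_of_mem h
      rw [Submodule.map_span] at h2
      refine Submodule.span_mono ?_ h2
      rintro _ ⟨y, ⟨d₁, d₂, h1, h2', h3, rfl⟩, rfl⟩
      refine ⟨d₁, d₂ ++ [z], ?_, ?_, ?_, ?_⟩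
      · intro i hi
        exact List.mem_append_left _ (h1 i hi)
      · intro i hi
        rcases List.mem_append.1 hi with hi | hi
        · exact List.mem_append_left _ (h2' i hi)
        · exact List.mem_append_right _ hi
      · intro i hi
        rcases List.mem_append.1 hi with hi | hi
        · rcases h3 i hi with h | h
          · exact Or.inl h
          · exact Or.inr (List.mem_append_left _ h)
        · exact Or.inr (List.mem_append_right _ hi)
      · rw [act_append]
        rfl
    · have h := ih (f z w)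
      refine Submodule.span_mono ?_ h
      rintro _ ⟨d₁, d₂, h1, h2', h3, rfl⟩
      refine ⟨z :: d₁, d₂, ?_, ?_, ?_, ?_⟩
      · intro i hi
        rcases List.mem_cons.1 hi with hi | hi
        · subst hi
          simp
        · exact List.mem_append_left _ (h1 i hi)
      · intro i hi
        exact List.mem_append_left _ (h2' i hi)
      · intro i hi
        rcases List.mem_append.1 hi with hi | hi
        · rcases h3 i hi with h | h
          · exact Or.inl (List.mem_cons_of_mem _ h)
          · exact Or.inr h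
        · rw [List.mem_singleton] at hi
          subst hi
          exact Or.inl List.mem_cons_self
      · rw [act_cons]

/-- Module BRK. -/
theorem hBRK (hPKU : StPKU) (hLST : StLST) : StBRK := by
  intro p ι E V _ _ f Y Z M W' r Q hQ hM hW' hZY hkill s hs d hd hpk w hw
  have hmem := span_claim f (f s) d w
  refine Submodule.span_le.2 ?_ hmem
  rintro _ ⟨d₁, d₂, h1, h2, h3, rfl⟩
  obtain ⟨-, -, -, -, -, -, -, h8, -⟩ := hLST p ι V f Y
  obtain ⟨hp1, -⟩ := hPKU ι E
  have hd1 : ∀ i ∈ d₁, i ∈ Z := fun i hi => hd i (h1 i hi)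
  have hd2 : ∀ i ∈ d₂, i ∈ Z := fun i hi => hd i (h2 i hi)
  have hpk' : Pk E r ((Q - 1) + (Q - 1) + 1) (ltr d) := by
    have he : (Q - 1) + (Q - 1) + 1 = 2 * Q - 1 := by omega
    rw [he]
    exact hpk
  have hcase := hp1 r (Q - 1) (Q - 1) (ltr d) (ltr d₁) (ltr d₂) hpk' (fun i hi => h3 i hi)
  have hQ1 : Q - 1 + 1 = Q := by omega
  rw [hQ1] at hcase
  show act f d₂ (f s (act f d₁ w)) ∈ W'
  rcases hcase with hc | hc
  · have ha : act f d₁ w ∈ W' := hkill d₁ hd1 hc w hw
    exact h8 W' hW' d₂ (fun i hi => hZY (hd2 i hi)) _ (hW' s hs _ ha)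
  · have ha : act f d₁ w ∈ M := h8 M hM d₁ (fun i hi => hZY (hd1 i hi)) w hw
    exact hkill d₂ hd2 hc _ (hM s hs _ ha)

end Pool.Agent.Helper10.LGB
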